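import Pool.Agent.PSS.StmtsS4

/-!
# Squad PSS, row QOR: only the orbits of `1 × V` which are fixed by `Q` contribute to the relative trace
-/

open scoped BigOperators TensorProduct

noncomputable section

namespace Pool.Agent.PSS.H29

open Pool.Agent.PSS

theorem qor (hO : OrbStmt) : QorStmt := by
  intro R V A Ω _ _ _ _ _ _ _ α lam b d hD Q z hz
  classical
  have hzc : ∀ v : V, α v * z = z * α v := fun v => mem_cw.1 hz v (Subgroup.mem_top v)
  let ι : Q →* V × V := (Q.subtype).prod 1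
  let iQ : MulAction Q (Qt (V := V) Ω) := MulAction.compHom (Qt (V := V) Ω) ι
  let f : Qt (V := V) Ω → A := fun k => b k.rep * z * d k.rep
  have hsm : ∀ (q : Q) (k : Qt (V := V) Ω), q • k = (((q : V), (1 : V)) : V × V) • k :=
    fun _ _ => rfl
  -- the value of `f` at the orbit of `ω`
  have hf : ∀ ω : Ω, f (qmk ω) = b ω * z * d ω := by
    intro ω
    obtain ⟨v, hv⟩ := qmk_eq.1 (Qt.mk_rep (qmk ω : Qt (V := V) Ω))
    change b (Qt.rep (qmk ω)) * z * d (Qt.rep (qmk ω)) = b ω * z * d ω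
    generalize Qt.rep (qmk ω : Qt (V := V) Ω) = ω' at hv ⊢
    subst hv
    rw [hD.eb, hD.ed, inv_one, map_one, one_mul, mul_one]
    have h1 : α v⁻¹ * z = z * α v⁻¹ := hzc v⁻¹
    calc b ω' * z * d ω' = b ω' * z * (α v⁻¹ * α v) * d ω' := by
          rw [← map_mul, inv_mul_cancel, map_one, mul_one]
      _ = b ω' * (z * α v⁻¹) * (α v * d ω') := by simp only [mul_assoc]
      _ = b ω' * α v⁻¹ * z * (α v * d ω') := by rw [← h1]; simp only [mul_assoc]
  have heq : ∀ (q : Q) (k : Qt (V := V) Ω), f (q • k) = ((cw R α).comp Q.subtype) q (f k) := by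
    intro q k
    obtain ⟨ω, rfl⟩ : ∃ ω, qmk ω = k := ⟨k.rep, k.mk_rep⟩
    rw [hsm, smul_qmk, hf, hf, hD.eb, hD.ed, inv_one, map_one, one_mul, mul_one]
    change _ = α (q : V) * (b ω * z * d ω * α (q : V)⁻¹)
    simp only [mul_assoc]
  have key := hO R Q (Qt (V := V) Ω) A ((cw R α).comp Q.subtype) f heq
  rw [← BKR_range (cw R α) Q.subtype_injective, Subgroup.range_subtype] at key
  have hiff : ∀ k : Qt (V := V) Ω, (⊤ : Subgroup Q) ≤ MulAction.stabilizer Q k ↔
      Q.prod (⊥ : Subgroup V) ≤ MulAction.stabilizer (V × V) k := by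
    intro k
    constructor
    · rintro h ⟨u, v⟩ ⟨hu, hv⟩
      have hv' : v = 1 := hv
      subst hv'
      exact h (Subgroup.mem_top (⟨u, hu⟩ : Q))
    · intro h q _
      exact h (show (((q : V), (1 : V)) : V × V) ∈ Q.prod (⊥ : Subgroup V) from ⟨q.2, rfl⟩)
  have hsum : ∑ k : Fp (Qt (V := V) Ω) (⊤ : Subgroup Q), f k.1 =
      ∑ k : Fp (Qt (V := V) Ω) (Q.prod (⊥ : Subgroup V)), f k.1 := by
    let e : Fp (Qt (V := V) Ω) (⊤ : Subgroup Q) ≃
        Fp (Qt (V := V) Ω) (Q.prod (⊥ : Subgroup V)) := Equiv.subtypeEquivRight hiff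
    exact Fintype.sum_equiv e _ _ fun k => rfl
  rw [hsum] at key
  exact key

end Pool.Agent.PSS.H29
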