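import Pool.Agent.PSS.StmtsS1d

/-!
# Squad PSS, row FRE: the ring of the deformation is finite and free (helper29)
-/

noncomputable section

namespace Pool.Agent.PSS.H29

open Pool.Agent.PSS
open Finset

/-- the coordinates of the ring of the deformation -/
def freE {k W A ι : Type} [CommRing k] [Group W] [Ring A] [Algebra k A] [Fintype ι]
    (om : W →* A) (D : Dm k om) (bs : Module.Basis ι k A) :
    D.R ≃ₗ[PowerSeries k] (ι → PowerSeries k) where
  toFun x := fun i => PowerSeries.mk fun n => bs.equivFun (D.sq x n) i
  map_add' x y := by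
    have h1 : D.sq (x + y) = D.sq x + D.sq y := by
      conv_lhs => rw [← D.of_sq x, ← D.of_sq y, ← D.of_add]
      rw [D.sq_of]
    funext i
    ext n
    rw [Pi.add_apply, map_add, PowerSeries.coeff_mk, PowerSeries.coeff_mk, PowerSeries.coeff_mk,
      h1, Pi.add_apply, map_add, Pi.add_apply]
  map_smul' c x := by
    have h1 : D.sq (c • x) = Dm.smulq c (D.sq x) := by
      conv_lhs => rw [← D.of_sq x, ← D.of_smul]
      rw [D.sq_of]
    funext i
    ext n
    rw [RingHom.id_apply, Pi.smul_apply, smul_eq_mul, PowerSeries.coeff_mul,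
      PowerSeries.coeff_mk, h1, Dm.smulq, map_sum, Finset.sum_apply]
    refine Finset.sum_congr rfl fun p _ => ?_
    rw [map_smul, Pi.smul_apply, smul_eq_mul, PowerSeries.coeff_mk]
  invFun g := D.of fun n => bs.equivFun.symm fun i => PowerSeries.coeff n (g i)
  left_inv x := by
    conv_rhs => rw [← D.of_sq x]
    refine congrArg D.of (funext fun n => ?_)
    have h1 : (fun i => PowerSeries.coeff n (PowerSeries.mk fun n => bs.equivFun (D.sq x n) i)) =
        bs.equivFun (D.sq x n) := by
      funext i
      rw [PowerSeries.coeff_mk]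
    exact (congrArg bs.equivFun.symm h1).trans (bs.equivFun.symm_apply_apply _)
  right_inv g := by
    funext i
    ext n
    rw [PowerSeries.coeff_mk, D.sq_of, LinearEquiv.apply_symm_apply]

/-- FRE. -/
theorem fre : FreStmt := by
  intro k W A _ _ _ _ _ _ om D
  let bs := Module.Free.chooseBasis k A
  let e := freE om D bs
  exact ⟨Module.Finite.equiv e.symm, Module.Free.of_equiv e.symm⟩

end Pool.Agent.PSS.H29
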