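import Pool.Agent.PSS.StmtsS1c

/-!
# Squad PSS, rows DMF and DMR: reduction of a deformation, deformation of the order (helper29)
-/

noncomputable section

namespace Pool.Agent.PSS.H29

open Pool.Agent.PSS
open Pool.Agent.PFD.D2 (Cdv FibG)
open Finset

/-- DMF. -/
theorem dmf : DmfStmt := by
  intro R F V A A₀ _ _ _ _ _ _ _ W α cv f α₀ D hα
  have hq : ∀ (r : R) (x : A), f.q (r • x) = cv.κ r • f.q x := by
    intro r x
    rw [Algebra.smul_def, map_mul, f.sc, ← Algebra.smul_def]
  have hπ : cv.κ cv.π = 0 := (cv.ker _).2 ⟨1, (mul_one _).symm⟩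
  have hwd : ∀ (n : ℕ) (a a' b b' : A), f.q a = f.q a' → f.q b = f.q b' →
      f.q (D.m n a b) = f.q (D.m n a' b') := by
    intro n a a' b b' ha hb
    obtain ⟨c, hc⟩ := f.ker (a - a') (by rw [map_sub, ha, sub_self])
    obtain ⟨d, hd⟩ := f.ker (b - b') (by rw [map_sub, hb, sub_self])
    have h1 : a = a' + cv.π • c := by rw [← hc]; abel
    have h2 : b = b' + cv.π • d := by rw [← hd]; abel
    have h3 : ∀ b, f.q (D.m n (a' + cv.π • c) b) = f.q (D.m n a' b) := by
      intro b
      rw [map_add (D.m n), LinearMap.add_apply, map_smul (D.m n), LinearMap.smul_apply,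
        map_add f.q, hq, hπ, zero_smul, add_zero]
    rw [h1, h2, h3, map_add (D.m n a'), map_smul (D.m n a'), map_add f.q, hq, hπ, zero_smul,
      add_zero]
  choose s hs using f.surj
  have hsc : ∀ c : F, ∃ r : R, cv.κ r = c := cv.surj
  have key : ∀ (n : ℕ) (a b : A), f.q (D.m n (s (f.q a)) (s (f.q b))) = f.q (D.m n a b) :=
    fun n a b => hwd n _ _ _ _ (hs _) (hs _)
  let m : ℕ → (A₀ →ₗ[F] A₀ →ₗ[F] A₀) := fun n =>
    LinearMap.mk₂ F (fun x y => f.q (D.m n (s x) (s y)))
      (fun x x' y => by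
        rw [hwd n (s (x + x')) (s x + s x') (s y) (s y) (by rw [hs, map_add, hs, hs]) rfl,
          map_add, LinearMap.add_apply, map_add])
      (fun c x y => by
        obtain ⟨r, rfl⟩ := hsc c
        rw [hwd n (s (cv.κ r • x)) (r • s x) (s y) (s y) (by rw [hs, hq, hs]) rfl,
          map_smul, LinearMap.smul_apply, hq])
      (fun x y y' => by
        rw [hwd n (s x) (s x) (s (y + y')) (s y + s y') rfl (by rw [hs, map_add, hs, hs]),
          map_add, map_add])
      (fun c x y => by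
        obtain ⟨r, rfl⟩ := hsc c
        rw [hwd n (s x) (s x) (s (cv.κ r • y)) (r • s y) rfl (by rw [hs, hq, hs]),
          map_smul, hq])
  have hm : ∀ (n : ℕ) (a b : A), m n (f.q a) (f.q b) = f.q (D.m n a b) := key
  have haw : ∀ w : W, aw α₀ W w = f.q (aw α W w) := fun w => (hα w).symm
  refine ⟨{ m := m, m0 := ?_, ass := ?_, wl := ?_, wm := ?_, wr := ?_, n1 := ?_, n2 := ?_ },
    fun n a b => (hm n a b).symm⟩
  · intro x y
    obtain ⟨a, rfl⟩ := f.surj x
    obtain ⟨b, rfl⟩ := f.surj y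
    rw [hm, D.m0, map_mul]
  · intro n x y z
    obtain ⟨a, rfl⟩ := f.surj x
    obtain ⟨b, rfl⟩ := f.surj y
    obtain ⟨c, rfl⟩ := f.surj z
    have h1 := congrArg f.q (D.ass n a b c)
    rw [map_sum, map_sum] at h1
    simp only [hm]
    exact h1
  · intro n w x y
    obtain ⟨a, rfl⟩ := f.surj x
    obtain ⟨b, rfl⟩ := f.surj y
    rw [haw, ← map_mul, hm, hm, D.wl, map_mul]
  · intro n w x y
    obtain ⟨a, rfl⟩ := f.surj x
    obtain ⟨b, rfl⟩ := f.surj y
    rw [haw, ← map_mul, ← map_mul, hm, hm, D.wm]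
  · intro n w x y
    obtain ⟨a, rfl⟩ := f.surj x
    obtain ⟨b, rfl⟩ := f.surj y
    rw [haw, ← map_mul, hm, hm, D.wr, map_mul]
  · intro n x
    obtain ⟨a, rfl⟩ := f.surj x
    rw [← map_one f.q, hm, D.n1, map_zero]
  · intro n x
    obtain ⟨a, rfl⟩ := f.surj x
    rw [← map_one f.q, hm, D.n2, map_zero]

/-- DMR. -/
theorem dmr (hT : TraStmt) : DmrStmt := by
  intro R K V A B _ _ _ _ _ _ _ _ _ W α i hi htow P m hm hin
  obtain ⟨⟨DK, hDK⟩, -, -⟩ := hT K V B (ia i α) W P m hm
  choose g hg using hin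
  let mm : ℕ → (A →ₗ[R] A →ₗ[R] A) := fun n =>
    LinearMap.mk₂ R (fun a b => g n a b)
      (fun a a' b => hi (by rw [map_add, hg, hg, hg, map_add, map_add, LinearMap.add_apply]))
      (fun r a b => hi (by
        rw [hg, map_smul i, map_smul i, hg, ← htow r (i a), map_smul (m n), LinearMap.smul_apply,
          htow]))
      (fun a b b' => hi (by rw [map_add, hg, hg, hg, map_add, map_add]))
      (fun r a b => hi (by
        rw [hg, map_smul i, map_smul i, hg, ← htow r (i b), map_smul (m n (i a)), htow]))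
  have hmm : ∀ n a b, i (mm n a b) = DK.m n (i a) (i b) := by
    intro n a b
    rw [hDK]
    exact hg n a b
  refine ⟨{ m := mm, m0 := ?_, ass := ?_, wl := ?_, wm := ?_, wr := ?_, n1 := ?_, n2 := ?_ },
    fun n a b => hg n a b⟩
  · intro a b
    apply hi
    rw [hmm, DK.m0, map_mul i]
  · intro n a b c
    apply hi
    rw [map_sum i, map_sum i]
    simp only [hmm]
    exact DK.ass n (i a) (i b) (i c)
  · intro n w a b
    apply hi
    rw [hmm, map_mul i, map_mul i, hmm]
    exact DK.wl n w (i a) (i b)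
  · intro n w a b
    apply hi
    rw [hmm, hmm, map_mul i, map_mul i]
    exact DK.wm n w (i a) (i b)
  · intro n w a b
    apply hi
    rw [hmm, map_mul i, map_mul i, hmm]
    exact DK.wr n w (i a) (i b)
  · intro n a
    apply hi
    rw [hmm, map_one i, map_zero i]
    exact DK.n1 n (i a)
  · intro n a
    apply hi
    rw [hmm, map_one i, map_zero i]
    exact DK.n2 n (i a)

end Pool.Agent.PSS.H29
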