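import Pool.Agent.PSS.StmtsOB

/-! Squad PSS, block OB, row HCW: a trivialisation on `V` extends to a cochain on the order. -/

open scoped BigOperators TensorProduct

noncomputable section

namespace Pool.Agent.PSS.H29

open Pool.Agent.PSS
open Pool.Agent.PFD.D2b (FrR)
open Finset

section core

variable {K V B : Type} [Field K] [CommGroup V] [Ring B] [Algebra K B]
  {β : V →* B} {M : Subring B} {cc : B →ₗ[K] B →ₗ[K] B} {W : Subgroup V}

theorem bb (u v : V) : β u * β v = β (u * v) := (map_mul β u v).symm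

theorem v_comm (u v : V) : β u * β v = β v * β u := by
  rw [bb, bb, mul_comm]

/-- sums over the classes modulo `W` do not depend on the representatives -/
theorem sum_shift [Fintype (V ⧸ W)] {X : Type} [AddCommMonoid X] {F : V → X}
    (hF : ∀ w ∈ W, ∀ u, F (u * w) = F u) (v : V) :
    ∑ q : V ⧸ W, F (v * q.out) = ∑ q : V ⧸ W, F q.out := by
  have h1 : ∀ q : V ⧸ W, F (v * q.out) = F (((v : V ⧸ W) * q).out) := by
    intro q
    have h2 : ((v * q.out : V) : V ⧸ W) = ((((v : V ⧸ W) * q).out : V) : V ⧸ W) := by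
      rw [QuotientGroup.out_eq', QuotientGroup.mk_mul, QuotientGroup.out_eq']
    have h3 := QuotientGroup.eq.1 h2
    have h4 := hF _ h3 (v * q.out)
    rw [mul_inv_cancel_left] at h4
    exact h4.symm
  rw [Finset.sum_congr rfl fun q _ => h1 q]
  exact Equiv.sum_comp (Equiv.mulLeft (v : V ⧸ W)) fun q => F q.out

/-- HCW in the language of a subring -/
theorem hcw_core [Fintype (V ⧸ W)] (hM : ∀ v, β v ∈ M) (τ : B →ₗ[K] B)
    (τM : ∀ x ∈ M, τ x ∈ M) (τW : WBl β W τ)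
    (τs : ∀ x, ∑ q : V ⧸ W, β q.out * τ (β (q.out)⁻¹ * x) = x)
    (hW : WB2 β W fun a b => cc a b) (hN : Nrm fun a b => cc a b)
    (hc : ∀ x ∈ M, ∀ y ∈ M, ∀ t ∈ M, dl (fun a b => cc a b) x y t ∈ M) (γ : V → B)
    (hγ : ∀ w ∈ W, ∀ v, γ (v * w) = γ v * β w ∧ γ v * β w = β w * γ v)
    (hγ2 : ∀ u v, β u * γ v + γ u * β v + cc (β u) (β v) - γ (u * v) ∈ M) :
    ∃ g : B →ₗ[K] B, WBl β W g ∧ g 1 = 0 ∧ ∀ v, ∀ x ∈ M, cc (β v) x + d1 g (β v) x ∈ M := by
  obtain ⟨T, hT⟩ : ∃ T : V → B → B, ∀ u x, T u x = γ u * τ (β u⁻¹ * x) +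
      cc (β u) (τ (β u⁻¹ * x)) := ⟨_, fun _ _ => rfl⟩
  have hTW : ∀ x, ∀ w ∈ W, ∀ u, T (u * w) x = T u x := by
    intro x w hw u
    rw [hT, hT]
    have h1 : τ (β (u * w)⁻¹ * x) = β w⁻¹ * τ (β u⁻¹ * x) := by
      rw [mul_inv, mul_comm u⁻¹, map_mul β, mul_assoc, (τW w⁻¹ (W.inv_mem hw) _).1]
    have h2 : cc (β (u * w)) (β w⁻¹ * τ (β u⁻¹ * x)) = cc (β u) (τ (β u⁻¹ * x)) := by
      rw [map_mul β]
      have h3 : cc (β u * β w) (β w⁻¹ * τ (β u⁻¹ * x)) =
        cc (β u) (β w * (β w⁻¹ * τ (β u⁻¹ * x))) := (hW w hw _ _).2.1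
      rw [h3, ← mul_assoc, bb, mul_inv_cancel, map_one, one_mul]
    rw [h1, h2, (hγ w hw u).1, mul_assoc, ← mul_assoc (β w), bb, mul_inv_cancel, map_one,
      one_mul]
  let g₁ : B →ₗ[K] B := ∑ q : V ⧸ W,
    ((LinearMap.mulLeft K (γ q.out)).comp (τ.comp (LinearMap.mulLeft K (β (q.out)⁻¹))) +
      (cc (β q.out)).comp (τ.comp (LinearMap.mulLeft K (β (q.out)⁻¹))))
  have hg : ∀ x, g₁ x = ∑ q : V ⧸ W, T q.out x := by
    intro x
    simp only [g₁, LinearMap.sum_apply, LinearMap.add_apply, LinearMap.comp_apply,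
      LinearMap.mulLeft_apply, hT]
  -- linearity over W
  have hgW : WBl β W g₁ := by
    intro w hw x
    constructor
    · rw [hg, hg, Finset.mul_sum]
      refine Finset.sum_congr rfl fun q _ => ?_
      rw [hT, hT]
      have h1 : τ (β (q.out)⁻¹ * (β w * x)) = β w * τ (β (q.out)⁻¹ * x) := by
        rw [← mul_assoc, v_comm, mul_assoc, (τW w hw _).1]
      rw [h1, ← mul_assoc (γ q.out), (hγ w hw q.out).2]
      have h2 : cc (β q.out) (β w * τ (β (q.out)⁻¹ * x)) =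
          β w * cc (β q.out) (τ (β (q.out)⁻¹ * x)) := by
        have a1 : cc (β q.out * β w) (τ (β (q.out)⁻¹ * x)) =
            cc (β q.out) (β w * τ (β (q.out)⁻¹ * x)) := (hW w hw _ _).2.1
        have a2 : cc (β w * β q.out) (τ (β (q.out)⁻¹ * x)) =
            β w * cc (β q.out) (τ (β (q.out)⁻¹ * x)) := (hW w hw _ _).1
        rw [← a1, v_comm, a2]
      rw [h2, mul_add, mul_assoc]
    · rw [hg, hg, Finset.sum_mul]
      refine Finset.sum_congr rfl fun q _ => ?_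
      rw [hT, hT]
      have h1 : τ (β (q.out)⁻¹ * (x * β w)) = τ (β (q.out)⁻¹ * x) * β w := by
        rw [← mul_assoc, (τW w hw _).2]
      rw [h1]
      have h2 : cc (β q.out) (τ (β (q.out)⁻¹ * x) * β w) =
          cc (β q.out) (τ (β (q.out)⁻¹ * x)) * β w := (hW w hw _ _).2.2
      rw [h2, add_mul, mul_assoc]
  -- the action of V
  have hkey : ∀ (u : V), ∀ x ∈ M, g₁ (β u * x) -
      (β u * g₁ x + γ u * x + cc (β u) x) ∈ M := by
    intro u x hx
    obtain ⟨t, ht⟩ : ∃ t : V → B, t = fun v => τ (β v⁻¹ * x) := ⟨_, rfl⟩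
    have htM : ∀ v, t v ∈ M := fun v => by
      rw [ht]
      exact τM _ (M.mul_mem (hM _) hx)
    have hts : ∑ q : V ⧸ W, β q.out * t q.out = x := by
      rw [ht]
      exact τs x
    have h1 : g₁ (β u * x) = ∑ q : V ⧸ W, (γ (u * q.out) * t q.out +
        cc (β (u * q.out)) (t q.out)) := by
      rw [hg, ← sum_shift (F := fun v => T v (β u * x))
        (fun w hw v => hTW (β u * x) w hw v) u]
      refine Finset.sum_congr rfl fun q _ => ?_
      have h2 : β (u * q.out)⁻¹ * (β u * x) = β (q.out)⁻¹ * x := by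
        rw [← mul_assoc, bb, mul_inv, mul_comm u⁻¹, inv_mul_cancel_right]
      rw [hT, h2, ht]
    have hstep : ∀ v, γ (u * v) * t v + cc (β (u * v)) (t v) - (β u * (γ v * t v +
        cc (β v) (t v)) + γ u * (β v * t v) + cc (β u) (β v * t v)) ∈ M := by
      intro v
      have h2 := M.mul_mem (hγ2 u v) (htM v)
      have h3 := hc _ (hM u) _ (hM v) _ (htM v)
      have h4 := M.neg_mem (M.add_mem h2 h3)
      have h5 : γ (u * v) * t v + cc (β (u * v)) (t v) - (β u * (γ v * t v +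
          cc (β v) (t v)) + γ u * (β v * t v) + cc (β u) (β v * t v)) =
          -((β u * γ v + γ u * β v + cc (β u) (β v) - γ (u * v)) * t v +
            dl (fun a b => cc a b) (β u) (β v) (t v)) := by
        unfold dl
        rw [map_mul]
        noncomm_ring
      rw [h5]
      exact h4
    have h6 := M.sum_mem fun (q : V ⧸ W) (_ : q ∈ Finset.univ) => hstep q.out
    have e2 : ∑ q : V ⧸ W, (β u * (γ q.out * t q.out + cc (β q.out) (t q.out)) +
        γ u * (β q.out * t q.out) + cc (β u) (β q.out * t q.out)) =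
        β u * g₁ x + γ u * x + cc (β u) x := by
      rw [Finset.sum_add_distrib, Finset.sum_add_distrib, ← Finset.mul_sum, ← Finset.mul_sum,
        ← map_sum, hts, hg, ht]
      simp only [hT]
    rw [Finset.sum_sub_distrib, e2, ← h1] at h6
    exact h6
  -- normalisation
  obtain ⟨e', he'⟩ : ∃ e', e' = g₁ 1 := ⟨_, rfl⟩
  have hec' : ∀ w ∈ W, β w * e' = e' * β w := by
    intro w hw
    rw [he', ← (hgW w hw 1).1, ← (hgW w hw 1).2, mul_one, one_mul]
  obtain ⟨g, hgd⟩ : ∃ g : B →ₗ[K] B, g = g₁ - LinearMap.mulLeft K e' := ⟨_, rfl⟩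
  have hgx : ∀ x, g x = g₁ x - e' * x := by
    intro x
    rw [hgd]
    rfl
  have hWg : WBl β W g := by
    intro w hw x
    constructor
    · rw [hgx, hgx, (hgW w hw x).1, ← mul_assoc e', ← hec' w hw, mul_sub, mul_assoc]
    · rw [hgx, hgx, (hgW w hw x).2, sub_mul, mul_assoc]
  refine ⟨g, hWg, by rw [hgx, ← he', mul_one, sub_self], ?_⟩
  intro v x hx
  have h1 := hkey v x hx
  have h2 := hkey v 1 M.one_mem
  have h3 : cc (β v) 1 = 0 := hN.2 _
  rw [mul_one, mul_one, ← he', h3, add_zero] at h2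
  have h4 := M.sub_mem (M.mul_mem h2 hx) h1
  have h5 : cc (β v) x + d1 g (β v) x =
      (g₁ (β v) - (β v * e' + γ v)) * x - (g₁ (β v * x) -
        (β v * g₁ x + γ v * x + cc (β v) x)) := by
    unfold d1
    rw [hgx, hgx, hgx]
    noncomm_ring
  rw [h5]
  exact h4

end core

/-- HCW. -/
theorem hcw (ht : TawStmt) : HcwStmt := by
  classical
  intro R K V E A B κ Ω _ _ _ _ _ _ _ _ _ _ _ _ _ _ _ φ W α lam x y b c C cc γ hV hS hZ hγ hγ2
  have : Finite (V ⧸ W) := inferInstance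
  let iF : Fintype (V ⧸ W) := Fintype.ofFinite _
  obtain ⟨τ, h1, h2, h3⟩ := ht R K V E A B κ Ω φ W α lam x y b c C hV hS
  have hmem : ∀ s, s ∈ C.i.range.toSubring ↔ In C.i s := fun s => by
    constructor
    · rintro ⟨a, ha⟩
      exact ⟨a, ha⟩
    · rintro ⟨a, ha⟩
      exact ⟨a, ha⟩
  obtain ⟨g, g1, g2, g3⟩ := hcw_core (β := ia C.i α) (M := C.i.range.toSubring) (cc := cc)
    (W := W) (fun v => ⟨α v, rfl⟩) τ
    (by
      rintro _ ⟨a, rfl⟩
      exact (hmem _).2 (h1 a)) h2 h3 hZ.rel hZ.nrm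
    (by
      rintro _ ⟨a₁, rfl⟩ _ ⟨a₂, rfl⟩ _ ⟨a₃, rfl⟩
      exact (hmem _).2 (hZ.cyc a₁ a₂ a₃)) γ hγ (fun u v => (hmem _).2 (hγ2 u v))
  exact ⟨g, g1, g2, fun v a => (hmem _).1 (g3 v _ ⟨a, rfl⟩)⟩

end Pool.Agent.PSS.H29
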