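import Pool.Agent.PSS.StmtsS5

/-!
# Squad PSS, rows LNW and LKN (block S5): assemblies
-/

noncomputable section

namespace Pool.Agent.PSS.S5.H29

open Pool.Agent.PSS Pool.Agent.PSS.S5
open Pool.Agent.PFC (Ctf Lcq)

/-- LNW: the class of local algebras is stable under `N_W`. -/
theorem lnw (hp : LnpStmt) (hs : LnsStmt) (hl : LnlStmt) : LnwStmt := by
  intro ℓ _ F V E A B _ _ _ _ _ _ _ _ _ φ α W N hV hW hL
  obtain ⟨h1, h2, h3, h4⟩ := hp ℓ F V E A B φ α W N hV hW hL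
  exact ⟨h1, h2, h3, h4, hl ℓ F V E A B φ α W N hV hW hL,
    hs ℓ F V E A B φ α W N hV hL⟩

/-- LKN: the number of the classes. -/
theorem lkn (hk : KlnStmt) (hc : LkcStmt) : LknStmt := by
  intro ℓ _ F V E A _ _ _ _ _ _ _ _ _ φ α W hW hL
  refine hk ℓ F V E A φ α W hW hL ?_
  intro Q hQ
  apply hc ℓ F V E A φ α Q hW.pg hL
  intro e he
  obtain ⟨u, hu, hu'⟩ : ∃ u ∈ Q, u ∉ W := by
    by_contra h
    push Not at h
    exact hQ h
  rcases hW.free e u (he u hu) with h | h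
  · rw [h, map_one]
  · exact absurd h hu'

end Pool.Agent.PSS.S5.H29
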