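import Pool.Agent.PSS.StmtsS6
import Pool.Agent.Helper38_PFC.CPS
import Pool.Agent.Helper74_PP.Brt

/-!
# Squad PSS, row NWG: `N_X(A)` is the corner of the normaliser (helper29)
-/

open scoped BigOperators

set_option linter.unusedSectionVars false

noncomputable section

namespace Pool.Agent.PSS.H29

open Pool.Agent.PSS
open Pool.Agent.Helper51_AWC Pool.Agent.Helper79_WRA Pool.Agent.PP Pool.Agent.PP.KF
open Pool.Agent.PP.K9 Pool.Agent.PP.K9.H97 Pool.Agent.PP.H75 Pool.Agent.PP.T3 Pool.Agent.PP.T2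
open Pool.Agent.PFC

section sets

variable {F G W : Type} [Field F] [Group G] [Finite G] [CommGroup W] [Fintype W] (ι : W →* G)
  (X : Subgroup W)

/-- the elements of `G` which induce `ε` on `X` -/
def Xe (ε : MulAut X) (g : G) : Prop := ∀ w : X, g * ι w = ι (ε w) * g

/-- the twisted invariant functions -/
def Ti (ε : MulAut X) (a : G → F) : Prop :=
  ∀ (w : X) (g : G), a (ι (ε w) * g * (ι w)⁻¹) = a g

variable {ι X}

theorem Xe.mul {ε δ : MulAut X} {g h : G} (hg : Xe ι X ε g) (hh : Xe ι X δ h) :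
    Xe ι X (ε * δ) (g * h) := by
  intro w
  rw [mul_assoc, hh w, ← mul_assoc, hg (δ w), mul_assoc]
  rfl

theorem Xe.inv_mul {ε δ : MulAut X} {g h : G} (hg : Xe ι X ε g) (hh : Xe ι X (ε * δ) h) :
    Xe ι X δ (g⁻¹ * h) := by
  intro w
  have h1 := hh w
  have h2 := hg (δ w)
  have h3 : g⁻¹ * ι ((ε * δ) w) = ι (δ w) * g⁻¹ := by
    rw [inv_mul_eq_iff_eq_mul, ← mul_assoc, eq_mul_inv_iff_mul_eq, h2]
    rfl
  rw [mul_assoc, h1, ← mul_assoc, h3, mul_assoc]

theorem Xe.unique (hι : Function.Injective ι) {ε δ : MulAut X} {g : G} (h1 : Xe ι X ε g)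
    (h2 : Xe ι X δ g) : ε = δ := by
  ext w
  have h3 : ι (ε w) * g = ι (δ w) * g := by rw [← h1 w, h2 w]
  exact hι (mul_right_cancel h3)

theorem Xe.norm {ε : MulAut X} {g : G} (h1 : Xe ι X ε g) {Q : Subgroup G} (hQ : X.map ι = Q) :
    g ∈ Subgroup.normalizer (Q : Set G) := by
  rw [Subgroup.mem_normalizer_iff]
  intro h
  constructor
  · intro hh
    rw [← hQ] at hh ⊢
    obtain ⟨w, hw, rfl⟩ := hh
    refine ⟨ε ⟨w, hw⟩, (ε ⟨w, hw⟩).2, ?_⟩
    rw [eq_mul_inv_iff_mul_eq]
    exact (h1 ⟨w, hw⟩).symm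
  · intro hh
    rw [← hQ] at hh ⊢
    obtain ⟨w, hw, hw2⟩ := hh
    refine ⟨ε.symm ⟨w, hw⟩, (ε.symm ⟨w, hw⟩).2, ?_⟩
    have h2 := h1 (ε.symm ⟨w, hw⟩)
    rw [MulEquiv.apply_symm_apply] at h2
    have h3 : ι w * g = g * h := by
      rw [hw2]
      group
    rw [h3] at h2
    exact mul_left_cancel h2

theorem Xe.exi (hι : Function.Injective ι) {Q : Subgroup G} (hQ : X.map ι = Q) {g : G}
    (hg : g ∈ Subgroup.normalizer (Q : Set G)) : ∃ ε : MulAut X, Xe ι X ε g := by
  have h1 : ∀ g' ∈ Subgroup.normalizer (Q : Set G), ∀ w : X, ∃ w' : X, g' * ι w = ι w' * g' := by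
    intro g' hg' w
    rw [Subgroup.mem_normalizer_iff] at hg'
    have h2 : ι (w : W) ∈ (Q : Set G) := by
      rw [← hQ]
      exact ⟨w, w.2, rfl⟩
    have h3 := (hg' (ι w)).1 h2
    rw [← hQ] at h3
    obtain ⟨w', hw', h4⟩ := h3
    refine ⟨⟨w', hw'⟩, ?_⟩
    change g' * ι w = ι w' * g'
    rw [h4]
    group
  choose f hf using h1 g hg
  choose f' hf' using h1 g⁻¹ (Subgroup.inv_mem _ hg)
  have h5 : ∀ w, f' (f w) = w := by
    intro w
    have h6 := hf' (f w)
    have h7 := hf w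
    have h8 : g⁻¹ * ι (f w) = ι w * g⁻¹ := by
      rw [inv_mul_eq_iff_eq_mul, ← mul_assoc, eq_mul_inv_iff_mul_eq, h7]
    rw [h8] at h6
    exact (Subtype.ext (hι (mul_right_cancel h6))).symm
  have h9 : ∀ w, f (f' w) = w := by
    intro w
    have h6 := hf (f' w)
    have h7 := hf' w
    rw [inv_mul_eq_iff_eq_mul, ← mul_assoc, eq_mul_inv_iff_mul_eq] at h7
    rw [← h7] at h6
    exact (Subtype.ext (hι (mul_right_cancel h6))).symm
  refine ⟨{ toFun := f, invFun := f', left_inv := h5, right_inv := h9, map_mul' := ?_ }, hf⟩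
  intro u v
  apply Subtype.ext
  apply hι
  have h10 := hf (u * v)
  apply mul_right_cancel (b := g)
  rw [← h10, Subgroup.coe_mul, Subgroup.coe_mul, map_mul, map_mul, ← mul_assoc, hf u, mul_assoc,
    hf v, mul_assoc]

theorem Xe_one_iff {Q : Subgroup G} (hQ : X.map ι = Q) {g : G} :
    Xe ι X 1 g ↔ g ∈ Subgroup.centralizer (Q : Set G) := by
  rw [Subgroup.mem_centralizer_iff, ← hQ]
  constructor
  · rintro h _ ⟨w, hw, rfl⟩
    exact (h ⟨w, hw⟩).symm
  · intro h w
    exact (h (ι w) ⟨w, w.2, rfl⟩).symm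

theorem Ti.mul {ε δ : MulAut X} {a b : G → F} (ha : Ti ι X ε a) (hb : Ti ι X δ b) :
    Ti ι X (ε * δ) (mulF a b) := by
  intro w g
  unfold mulF
  rw [← finsum_comp_equiv ((Equiv.mulLeft (ι ((ε * δ) w))).trans
    (Equiv.mulRight ((ι (δ w))⁻¹)))]
  apply finsum_congr
  intro t
  change a (ι (ε (δ w)) * t * (ι (δ w))⁻¹) * b ((ι ((ε * δ) w) * t * (ι (δ w))⁻¹)⁻¹ *
    (ι ((ε * δ) w) * g * (ι w)⁻¹)) = _
  rw [ha (δ w) t]
  congr 1
  have h1 : (ι ((ε * δ) w) * t * (ι (δ w))⁻¹)⁻¹ * (ι ((ε * δ) w) * g * (ι w)⁻¹) =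
      ι (δ w) * (t⁻¹ * g) * (ι w)⁻¹ := by group
  rw [h1, hb w]

theorem Ti.loc {ε : MulAut X} {a : G → F} (ha : ∀ g, ¬ Xe ι X ε g → a g = 0) : Ti ι X ε a := by
  intro w g
  by_cases hg : Xe ι X ε g
  · rw [← hg w, mul_inv_cancel_right]
  · rw [ha g hg, ha]
    intro h
    apply hg
    have h1 : ι (ε w) * g * (ι w)⁻¹ = g := by
      have h2 := h w
      rw [inv_mul_cancel_right] at h2
      exact (mul_left_cancel h2).symm
    rwa [h1] at h

/-- `G` with the action of `X` by `t ↦ ι(ε δ w) t ι(δ w)⁻¹` -/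
def TT (_ : W →* G) (X : Subgroup W) (_ _ : MulAut X) : Type := G

instance (ε δ : MulAut X) : Finite (TT ι X ε δ) := inferInstanceAs (Finite G)

theorem gr1 (a b c d t : G) : a * b * t * (c * d)⁻¹ = a * (b * t * d⁻¹) * c⁻¹ := by group

theorem gr2 (a c t x w : G) (h : a⁻¹ * x = x * w⁻¹) :
    (a * t * c⁻¹)⁻¹ * x = c * (t⁻¹ * x) * w⁻¹ := by
  calc (a * t * c⁻¹)⁻¹ * x = c * t⁻¹ * (a⁻¹ * x) := by group
    _ = _ := by rw [h]; group

theorem act_one (ε δ : MulAut X) (t : G) : ι (ε (δ 1)) * t * (ι (δ 1))⁻¹ = t := by simp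

theorem act_mul (ε δ : MulAut X) (u v : X) (t : G) :
    ι (ε (δ (u * v))) * t * (ι (δ (u * v)))⁻¹ =
      ι (ε (δ u)) * (ι (ε (δ v)) * t * (ι (δ v))⁻¹) * (ι (δ u))⁻¹ := by
  simp only [map_mul, Subgroup.coe_mul]
  exact gr1 _ _ _ _ _

instance actT (ε δ : MulAut X) : MulAction X (TT ι X ε δ) where
  smul := fun w t => (ι (ε (δ w)) * (show G from t) * (ι (δ w))⁻¹ : G)
  one_smul := fun t => act_one ε δ (show G from t)
  mul_smul := fun u v t => act_mul ε δ u v (show G from t)

theorem fixedT (ε δ : MulAut X) (t : TT ι X ε δ) :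
    t ∈ MulAction.fixedPoints X (TT ι X ε δ) ↔ Xe ι X ε (show G from t) := by
  rw [MulAction.mem_fixedPoints]
  constructor
  · intro h w
    have h1 := h (δ.symm w)
    change ι (ε (δ (δ.symm w))) * (show G from t) * (ι (δ (δ.symm w)))⁻¹ =
      (show G from t) at h1
    rw [MulEquiv.apply_symm_apply, mul_inv_eq_iff_eq_mul] at h1
    exact h1.symm
  · intro h w
    change ι (ε (δ w)) * (show G from t) * (ι (δ w))⁻¹ = (show G from t)
    rw [← h (δ w), mul_inv_cancel_right]

/-- the restriction to the elements which induce `ε`, as a function -/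
def re0 (ι : W →* G) (X : Subgroup W) (Q : Subgroup G) (ε : MulAut X) (b : G → F) :
    Subgroup.normalizer (Q : Set G) → F :=
  open Classical in fun t => if Xe ι X ε (t : G) then b t else 0

theorem re0_in {Q : Subgroup G} {ε : MulAut X} {t : Subgroup.normalizer (Q : Set G)} (b : G → F)
    (h : Xe ι X ε (t : G)) : re0 ι X Q ε b t = b t := if_pos h

theorem re0_out {Q : Subgroup G} {ε : MulAut X} {t : Subgroup.normalizer (Q : Set G)}
    (b : G → F) (h : ¬ Xe ι X ε (t : G)) : re0 ι X Q ε b t = 0 := if_neg h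

/-- the restriction to the elements which induce `ε` -/
def re (ι : W →* G) (X : Subgroup W) (Q : Subgroup G) (ε : MulAut X) :
    (G → F) →ₗ[F] (Subgroup.normalizer (Q : Set G) → F) where
  toFun b := re0 ι X Q ε b
  map_add' := by
    intro a b
    funext t
    by_cases h : Xe ι X ε (t : G)
    · rw [Pi.add_apply, re0_in _ h, re0_in _ h, re0_in _ h]
      rfl
    · rw [Pi.add_apply, re0_out _ h, re0_out _ h, re0_out _ h, add_zero]
  map_smul' := by
    intro c a
    funext t
    by_cases h : Xe ι X ε (t : G)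
    · rw [Pi.smul_apply, re0_in _ h, re0_in _ h]
      rfl
    · rw [Pi.smul_apply, re0_out _ h, re0_out _ h, smul_zero]

theorem re_in {Q : Subgroup G} {ε : MulAut X} {t : Subgroup.normalizer (Q : Set G)} (b : G → F)
    (h : Xe ι X ε (t : G)) : re ι X Q ε b t = b t := re0_in b h

theorem re_out {Q : Subgroup G} {ε : MulAut X} {t : Subgroup.normalizer (Q : Set G)} (b : G → F)
    (h : ¬ Xe ι X ε (t : G)) : re ι X Q ε b t = 0 := re0_out b h

theorem re_one {Q : Subgroup G} (hQ : X.map ι = Q) (b : G → F) :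
    re ι X Q 1 b = fun t : Subgroup.normalizer (Q : Set G) => br Q b t := by
  funext t
  by_cases h : Xe ι X 1 (t : G)
  · rw [re_in b h, br_in _ ((Xe_one_iff hQ).1 h)]
  · rw [re_out b h, br_out]
    intro h1
    exact h ((Xe_one_iff hQ).2 h1)

/-- the restriction is multiplicative on the twisted invariant functions -/
theorem re_mul {ℓ : ℕ} (hℓ : ℓ.Prime) (hF : CharP F ℓ) (hW : IsPGroup ℓ W) {Q : Subgroup G}
    (hQ : X.map ι = Q) {ε δ : MulAut X} {a b : G → F} (ha : Ti ι X ε a) (hb : Ti ι X δ b) :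
    re ι X Q (ε * δ) (mulF a b) = mulF (re ι X Q ε a) (re ι X Q δ b) := by
  classical
  funext x
  by_cases hx : Xe ι X (ε * δ) (x : G)
  · rw [re_in _ hx]
    have h1 := H74.orb ℓ F F X (TT ι X ε δ) hℓ hF (hW.to_subgroup X)
      (fun t => a (show G from t) * b ((show G from t)⁻¹ * x)) (by
        intro w t
        change a (ι (ε (δ w)) * (show G from t) * (ι (δ w))⁻¹) *
          b ((ι (ε (δ w)) * (show G from t) * (ι (δ w))⁻¹)⁻¹ * x) = _
        rw [ha (δ w)]
        have h3 : (ι (ε (δ w)))⁻¹ * (x : G) = x * (ι w)⁻¹ := by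
          rw [inv_mul_eq_iff_eq_mul, ← mul_assoc, eq_mul_inv_iff_mul_eq]
          exact hx w
        rw [gr2 _ _ (show G from t) _ _ h3, hb w])
    have h4 : ∀ s : Subgroup.normalizer (Q : Set G),
        re ι X Q ε a s * re ι X Q δ b (s⁻¹ * x) =
          (if Xe ι X ε (s : G) then a s * b ((s : G)⁻¹ * x) else 0) := by
      intro s
      by_cases hs : Xe ι X ε (s : G)
      · have h5 : Xe ι X δ ((s⁻¹ * x : Subgroup.normalizer (Q : Set G)) : G) := hs.inv_mul hx
        rw [if_pos hs, re_in _ hs, re_in _ h5]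
        rfl
      · rw [if_neg hs, re_out _ hs, zero_mul]
    calc mulF a b x = ∑ᶠ t : G, a t * b (t⁻¹ * x) := rfl
      _ = ∑ᶠ (t : G) (_ : Xe ι X ε t), a t * b (t⁻¹ * x) := by
          refine h1.trans ?_
          refine finsum_congr fun t => ?_
          exact congrArg (fun p : Prop => ∑ᶠ (_ : p), a (show G from t) *
            b ((show G from t)⁻¹ * x)) (propext (fixedT ε δ t))
      _ = ∑ᶠ t : G, (if Xe ι X ε t then a t * b (t⁻¹ * x) else 0) := by
          refine finsum_congr fun t => ?_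
          rw [finsum_eq_if]
      _ = ∑ᶠ (t : G) (_ : t ∈ Subgroup.normalizer (Q : Set G)),
            (if Xe ι X ε t then a t * b (t⁻¹ * x) else 0) := by
          refine finsum_congr fun t => ?_
          rw [finsum_eq_if]
          by_cases ht : Xe ι X ε t
          · rw [if_pos (ht.norm hQ)]
          · rw [if_neg ht]
            split_ifs <;> rfl
      _ = ∑ᶠ s : Subgroup.normalizer (Q : Set G),
            (if Xe ι X ε (s : G) then a s * b ((s : G)⁻¹ * x) else 0) :=
          (finsum_subtype_eq_finsum_cond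
            (f := fun t : G => (if Xe ι X ε t then a t * b (t⁻¹ * x) else 0))
            (fun t => t ∈ Subgroup.normalizer (Q : Set G))).symm
      _ = mulF (re ι X Q ε a) (re ι X Q δ b) x := by
          unfold mulF
          apply finsum_congr
          intro s
          exact (h4 s).symm
  · rw [re_out _ hx]
    unfold mulF
    symm
    rw [← finsum_zero (α := Subgroup.normalizer (Q : Set G))]
    apply finsum_congr
    intro s
    by_cases hs : Xe ι X ε (s : G)
    · by_cases hs2 : Xe ι X δ ((s⁻¹ * x : Subgroup.normalizer (Q : Set G)) : G)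
      · exfalso
        apply hx
        have h1 := hs.mul hs2
        rwa [Subgroup.coe_mul, Subgroup.coe_inv, mul_inv_cancel_left] at h1
      · rw [re_out b hs2, mul_zero]
    · rw [re_out a hs, zero_mul]

end sets

/-- NWG. -/
theorem nwg : NwgStmt := by
  classical
  intro ℓ hℓ F _ hF G W _ _ _ _ ι hι hW X Q hQ j hj hv hn
  have hj1 : Ti ι X 1 j := fun w g => hv w g
  have hfx : ∀ (ε : MulAut X) (a : Crn hj), a ∈ FxR (bw F (jal hj ι hv)) (twW X ε) ↔
      Ti ι X ε (cv a) := by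
    intro ε a
    constructor
    · intro h w g
      have h1 := h ((ε w : W), (w : W)) ⟨w, rfl⟩
      have h2 := H38.cv_bi ι hj hv ((ε w : W), (w : W)) a (ι (ε w) * g * (ι w)⁻¹)
      rw [show bi F (jal hj ι hv) ((ε w : W), (w : W)) a = a from h1] at h2
      rw [h2]
      congr 1
      group
    · rintro h _ ⟨w, rfl⟩
      apply cv_inj
      funext y
      refine (H38.cv_bi ι hj hv ((ε w : W), (w : W)) a y).trans ?_
      rw [← h w]
      congr 1
      group
  have hr1 : re ι X Q 1 j = fun t : Subgroup.normalizer (Q : Set G) => br Q j t := re_one hQ j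
  have hmul : ∀ {ε δ : MulAut X} {a b : G → F}, Ti ι X ε a → Ti ι X δ b →
      re ι X Q (ε * δ) (mulF a b) = mulF (re ι X Q ε a) (re ι X Q δ b) :=
    fun ha hb => re_mul hℓ.out hF hW hQ ha hb
  have hl : ∀ (ε : MulAut X) (a : Crn hj), Ti ι X ε (cv a) →
      mulF (fun t : Subgroup.normalizer (Q : Set G) => br Q j t) (re ι X Q ε (cv a)) =
        re ι X Q ε (cv a) := by
    intro ε a ha
    have h1 := hmul hj1 ha
    rw [one_mul, cv_l, hr1] at h1
    exact h1.symm
  have hr : ∀ (ε : MulAut X) (a : Crn hj), Ti ι X ε (cv a) →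
      mulF (re ι X Q ε (cv a)) (fun t : Subgroup.normalizer (Q : Set G) => br Q j t) =
        re ι X Q ε (cv a) := by
    intro ε a ha
    have h1 := hmul ha hj1
    rw [mul_one, cv_r, hr1] at h1
    exact h1.symm
  -- the maps
  let β : MulAut X → (Crn hj →ₗ[F] Crn hn) := fun ε =>
    { toFun := fun a => mkj hn (re ι X Q ε (cv a))
      map_add' := by
        intro a b
        apply cv_inj
        refine Eq.trans ?_ (cv_add hn _ _).symm
        rw [cv_mkj, cv_mkj, cv_mkj, cv_add, map_add, H20.add_mulF, H20.mulF_add]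
      map_smul' := by
        intro c a
        apply cv_inj
        refine Eq.trans ?_ (cv_smul hn _ _).symm
        rw [cv_mkj, cv_mkj, cv_smul, map_smul, H20.smul_mulF, H20.mulF_smul]
        rfl }
  have hβ : ∀ (ε : MulAut X) (a : Crn hj), Ti ι X ε (cv a) → cv (β ε a) = re ι X Q ε (cv a) := by
    intro ε a ha
    change cv (mkj hn (re ι X Q ε (cv a))) = _
    rw [cv_mkj, hr ε a ha, hl ε a ha]
  have : Finite (MulAut X) := Finite.of_injective (fun e : MulAut X => (e : X → X))
    (fun e f h => MulEquiv.ext fun x => congrFun h x)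
  have : Fintype (MulAut X) := Fintype.ofFinite _
  refine ⟨⟨β, ?_, ?_, ?_, ?_, ?_⟩⟩
  · apply cv_inj
    rw [hβ 1 1 hj1, cv_one, cv_one, hr1]
  · intro ε δ a ha b hb
    rw [hfx] at ha hb
    apply cv_inj
    rw [cv_mul, hβ ε a ha, hβ δ b hb, hβ (ε * δ) (a * b) (ha.mul hb), cv_mul]
    exact hmul ha hb
  · intro ε a ha
    have h1 := (H38.cps ℓ F G W ι hι hW j hj hv).2.1 (twW X ε) a ha
    have h2 : a ∈ BKR (bw F (jal hj ι hv)) (twW X ε) ↔
        ∀ g : G, (∀ w ∈ twW X ε, ι w.1 * g = g * ι w.2) → cv a g = 0 := h1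
    rw [h2]
    rw [hfx] at ha
    constructor
    · intro h g hg
      have hXe : Xe ι X ε g := fun w => (hg ((ε w : W), (w : W)) ⟨w, rfl⟩).symm
      have h3 : re ι X Q ε (cv a) = 0 := by
        rw [← hβ ε a ha, h]
        rfl
      have h4 := congrFun h3 ⟨g, hXe.norm hQ⟩
      rw [re_in (t := ⟨g, hXe.norm hQ⟩) _ hXe] at h4
      exact h4
    · intro h
      apply cv_inj
      rw [hβ ε a ha, cv_zero]
      funext t
      by_cases ht : Xe ι X ε (t : G)
      · rw [re_in _ ht]
        refine h t ?_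
        rintro _ ⟨w, rfl⟩
        exact (ht w).symm
      · rw [re_out _ ht]
        rfl
  · intro f hf h ε
    have hf' : ∀ ε, Ti ι X ε (cv (f ε)) := fun ε => (hfx ε (f ε)).1 (hf ε)
    apply cv_inj
    rw [hβ ε _ (hf' ε), cv_zero]
    funext t
    by_cases ht : Xe ι X ε (t : G)
    · rw [finsum_eq_sum_of_fintype] at h
      have h1 := congrArg cv h
      rw [H38.cv_sum] at h1
      have h2 := congrFun h1 t
      rw [Finset.sum_apply, Finset.sum_eq_single ε] at h2
      · rw [hβ ε _ (hf' ε)] at h2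
        exact h2
      · intro δ _ hδ
        rw [hβ δ _ (hf' δ), re_out]
        intro h3
        exact hδ (h3.unique hι ht)
      · intro h3
        exact absurd (Finset.mem_univ _) h3
    · rw [re_out _ ht]
      rfl
  · intro b
    let bb : MulAut X → G → F := fun ε g =>
      if h : g ∈ Subgroup.normalizer (Q : Set G) then
        (if Xe ι X ε g then cv b ⟨g, h⟩ else 0) else 0
    have hbb : ∀ ε, Ti ι X ε (bb ε) := by
      intro ε
      apply Ti.loc
      intro g hg
      change dite _ _ _ = _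
      split_ifs
      · rfl
      · rfl
    have hc : ∀ ε, Ti ι X ε (cv (mkj hj (bb ε))) := by
      intro ε
      rw [cv_mkj]
      have h1 := hj1.mul ((hbb ε).mul hj1)
      rwa [mul_one, one_mul] at h1
    refine ⟨fun ε => mkj hj (bb ε), fun ε => (hfx ε _).2 (hc ε), ?_⟩
    rw [finsum_eq_sum_of_fintype]
    apply cv_inj
    rw [H38.cv_sum]
    have h2 : ∀ ε, cv (β ε (mkj hj (bb ε))) =
        mulF (fun t : Subgroup.normalizer (Q : Set G) => br Q j t)
          (mulF (re ι X Q ε (bb ε)) (fun t : Subgroup.normalizer (Q : Set G) => br Q j t)) := by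
      intro ε
      rw [hβ ε _ (hc ε), cv_mkj]
      have h3 := hmul hj1 ((hbb ε).mul hj1)
      have h4 := hmul (hbb ε) hj1
      rw [mul_one] at h3 h4
      rw [one_mul] at h3
      rw [h3, h4, hr1]
    rw [Finset.sum_congr rfl fun ε _ => h2 ε, ← H38.mulF_sum, ← H38.sum_mulF]
    have h5 : ∑ ε, re ι X Q ε (bb ε) = cv b := by
      funext t
      obtain ⟨ε, hε⟩ := Xe.exi hι hQ t.2
      rw [Finset.sum_apply, Finset.sum_eq_single ε]
      · rw [re_in _ hε]
        change dite _ _ _ = _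
        rw [dif_pos t.2, if_pos hε]
      · intro δ _ hδ
        rw [re_out]
        intro h3
        exact hδ (h3.unique hι hε)
      · intro h3
        exact absurd (Finset.mem_univ _) h3
    rw [h5, cv_r, cv_l]

end Pool.Agent.PSS.H29
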