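import Pool.Agent.PSS.StmtsOB

/-! Squad PSS, block OB, row STX: one step of the deformation with target. -/

open scoped BigOperators TensorProduct

noncomputable section

namespace Pool.Agent.PSS.H29

open Pool.Agent.PSS
open Pool.Agent.PFD.D2 (Cdv FibG)
open Pool.Agent.PFD.D2b (FrR)
open Finset

theorem stx (TRX : TrxStmt) (TRC : TrcStmt) (H2W : H2wStmt) : StxStmt := by
  intro R K F V E A A₀ B κ Ω _ _ _ _ _ _ _ _ _ _ _ _ _ _ _ _ _ _ _ _ _ φ W α lam x y b c C u
    cv f α₀ D₀ hV hS hu hα P m N μ cc hT hI hμ hcc hZ hF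
  -- the scalar
  set p : K := algebraMap R K cv.π with hp
  have hps : ∀ a : A, p • C.i a = C.i (cv.π • a) := by
    intro a
    rw [hp, C.tow, map_smul]
  have hκ : cv.κ cv.π = 0 := (cv.ker _).2 ⟨1, (mul_one _).symm⟩
  have hqs : ∀ a : A, f.q (cv.π • a) = 0 := by
    intro a
    rw [Algebra.smul_def, map_mul, f.sc, hκ, map_zero, zero_mul]
  obtain ⟨H, hH1, hH2, hH3⟩ := H2W R K V E A B κ Ω φ W α lam x y b c C u hV hS hu cc hZ hF
  let P' : ℕ → (B →ₗ[K] B) := fun n => if n = N + 1 then P (N + 1) - p • H else P n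
  have hP' : ∀ n ≤ N, P' n = P n := by
    intro n hn
    simp only [P']
    rw [if_neg (by omega)]
  have hPN : P' (N + 1) = P (N + 1) - p • H := by simp only [P', if_true]
  have hP0 : P' 0 = LinearMap.id := by rw [hP' 0 (Nat.zero_le _), hT.p0]
  have hPw : ∀ n, WBl (ia C.i α) W (P' n) := by
    intro n
    by_cases hn : n = N + 1
    · rw [hn, hPN]
      intro w hw a
      rw [LinearMap.sub_apply, LinearMap.sub_apply, LinearMap.sub_apply, LinearMap.smul_apply,
        LinearMap.smul_apply, LinearMap.smul_apply,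
        (hT.pw (N + 1) w hw a).1, (hT.pw (N + 1) w hw a).2, (hH1 w hw a).1, (hH1 w hw a).2,
        mul_sub, sub_mul, mul_smul_comm, smul_mul_assoc]
      exact ⟨rfl, rfl⟩
    · have : P' n = P n := by simp only [P']; rw [if_neg hn]
      rw [this]
      exact hT.pw n
  have hP1 : ∀ n, P' (n + 1) 1 = 0 := by
    intro n
    by_cases hn : n + 1 = N + 1
    · rw [hn, hPN, LinearMap.sub_apply, LinearMap.smul_apply, hT.p1, hH2, smul_zero, sub_zero]
    · have : P' (n + 1) = P (n + 1) := by simp only [P']; rw [if_neg hn]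
      rw [this]
      exact hT.p1 n
  obtain ⟨m', hm'⟩ := TRX K V B (ia C.i α) W P' hP0 hPw hP1
  obtain ⟨hc1, hc2⟩ := TRC K V B (ia C.i α) W P P' m m' N hT hm' hP'
  refine ⟨P', m', hm', hP', fun n hn a₁ a₂ => ?_⟩
  by_cases hnN : n ≤ N
  · rw [hc1 n hnN]
    exact hI n hnN a₁ a₂
  · have hn' : n = N + 1 := by omega
    rw [hn', hc2]
    obtain ⟨e, he⟩ := hH3 a₁ a₂
    obtain ⟨e1, he1, hq1⟩ := hμ a₁ a₂
    refine ⟨e1 + cv.π • e, ?_, ?_⟩
    · rw [map_add, ← hps, he, smul_sub, hcc, he1]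
      simp only [d1, hPN, LinearMap.sub_apply, LinearMap.smul_apply, smul_add, smul_sub,
        mul_sub, sub_mul, mul_smul_comm, smul_mul_assoc]
      abel
    · rw [map_add, hqs, add_zero, hq1]

end Pool.Agent.PSS.H29
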