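import Pool.Agent.PSS.StmtsS2

/-!
# Squad PSS, row SVH: the connection adapted to the two sided action (helper29)
-/

noncomputable section

namespace Pool.Agent.PSS.H29

open Pool.Agent.PSS Pool.Agent.PSS.S2
open Pool.Agent.PFC (tw)

/-- SVH. -/
theorem svh (hT : TorStmt) : SvhStmt := by
  intro B V E Ω _ _ _ _ φ χ e S hχ he hst
  have hinv : ∀ (g : E) (r : V), φ g⁻¹ (φ g r) = r := by
    intro g r
    rw [← MulAut.mul_apply, ← map_mul, inv_mul_cancel, map_one, MulAut.one_apply]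
  obtain ⟨H, hH⟩ := hT (V × V) Ω B (fun ω p => χ (φ (e ω)⁻¹ p.1) - χ p.2)
    (fun ω g => by
      funext p
      rw [he])
    (fun ω g g' => by
      change χ (φ (e ω)⁻¹ (g.1 * g'.1)) - χ (g.2 * g'.2) = _
      rw [map_mul, hχ, hχ]
      abel)
    (fun ω g hg => by
      have h1 : g ∈ MulAction.stabilizer (V × V) ω := hg
      rw [hst ω] at h1
      obtain ⟨r, -, rfl⟩ := h1
      change χ (φ (e ω)⁻¹ (φ (e ω) r)) - χ r = 0
      rw [hinv, sub_self])
  refine ⟨H, fun u v ω => ?_⟩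
  rw [hH (u, v) ω, add_sub_assoc]

end Pool.Agent.PSS.H29
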